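import Pool.Agent.N356.SP.DefsK

/-! Project LK, part GK10: the pointwise inequality. -/

set_option autoImplicit false

namespace Pool.Agent.N957.LK

open Finset Pool.Agent.H384R3.SPk Pool.Agent.N356.SP

theorem lam_pos (k : ℕ) : 0 < lam k := by
  unfold lam
  have : 0 < (2 * k).choose k := Nat.choose_pos (by omega)
  positivity

theorem cK_pos {k : ℕ} (hk : 1 ≤ k) : 0 < cK k := by
  unfold cK
  have h1 : 0 < (2 * k).choose k := Nat.choose_pos (by omega)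
  have h2 : (1 : ℝ) ≤ k := by exact_mod_cast hk
  have h3 : (0 : ℝ) < 2 * (2 * (k : ℝ) - 1) := by linarith
  positivity

theorem cK_mul {k : ℕ} (hk : 1 ≤ k) {r : ℝ} (hr : 0 < r) (h : r ^ k = lam k) :
    cK k * r = 2 * (k : ℝ) - 1 := by
  have h1 : 0 < (2 * k).choose k := Nat.choose_pos (by omega)
  have h2 : (1 : ℝ) ≤ k := by exact_mod_cast hk
  have h3 : (0 : ℝ) < 2 * (k : ℝ) - 1 := by linarith
  have h4 : cK k ^ k = (2 * (2 * (k : ℝ) - 1)) ^ k / ((2 * k).choose k : ℝ) := by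
    unfold cK
    rw [← Real.rpow_natCast, ← Real.rpow_mul (by positivity)]
    rw [one_div, inv_mul_cancel₀ (by positivity), Real.rpow_one]
  have h5 : (cK k * r) ^ k = (2 * (k : ℝ) - 1) ^ k := by
    rw [mul_pow, h4, h]
    unfold lam
    rw [mul_pow]
    have : ((2 * k).choose k : ℝ) ≠ 0 := by positivity
    field_simp
  exact (pow_left_inj₀ (mul_pos (cK_pos hk) hr).le h3.le (by omega)).1 h5

theorem pK_scale (k : ℕ) (μ z : ℝ) : pK k μ (z * μ ^ 2) = μ ^ k * pK k 1 z := by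
  unfold pK
  rw [mul_sum]
  refine sum_congr rfl fun j hj => ?_
  have hj' : 2 * j ≤ k := by
    have := mem_range.1 hj
    omega
  simp only [smul_eq_mul, one_pow, mul_one]
  have : μ ^ k = (μ ^ 2) ^ j * μ ^ (k - 2 * j) := by
    rw [← pow_mul, ← pow_add]
    congr 1
    omega
  rw [this, mul_pow]
  ring

theorem one_le_pK (k : ℕ) {z : ℝ} (hz : 0 ≤ z) : 1 ≤ pK k (1 : ℝ) z := by
  unfold pK
  have h0 : (1 : ℝ) = ((k.choose (2 * 0) : ℝ) * lam 0) • (z ^ 0 * (1 : ℝ) ^ (k - 2 * 0)) := by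
    unfold lam
    simp
  refine h0.le.trans ?_
  refine single_le_sum (s := range (k / 2 + 1)) (a := 0)
    (f := fun j => ((k.choose (2 * j) : ℝ) * lam j) • (z ^ j * (1 : ℝ) ^ (k - 2 * j)))
    (fun j _ => ?_) (mem_range.2 (Nat.succ_pos _))
  have := lam_pos j
  simp only [smul_eq_mul]
  positivity

theorem exists_psi {c : ℝ} (hc : 0 ≤ c) : ∃ ψ : ℝ, 1 ≤ ψ ∧ ψ ^ 2 * (ψ - 1) = c := by
  have hcont : ContinuousOn (fun ψ : ℝ => ψ ^ 2 * (ψ - 1)) (Set.Icc 1 (1 + c)) := by fun_prop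
  have h : Set.Icc ((1 : ℝ) ^ 2 * (1 - 1)) ((1 + c) ^ 2 * (1 + c - 1)) ⊆
      (fun ψ : ℝ => ψ ^ 2 * (ψ - 1)) '' Set.Icc 1 (1 + c) :=
    intermediate_value_Icc (by linarith : (1 : ℝ) ≤ 1 + c) hcont
  have h2 : c ∈ Set.Icc ((1 : ℝ) ^ 2 * (1 - 1)) ((1 + c) ^ 2 * (1 + c - 1)) := by
    constructor
    · simpa using hc
    · have : 0 ≤ (1 + c) ^ 2 - 1 := by nlinarith
      nlinarith
  obtain ⟨ψ, h3, h4⟩ := h h2
  exact ⟨ψ, h3.1, h4⟩

theorem quad {A B D G s : ℝ} (hA : 0 ≤ A) (hB : 0 ≤ B) (hG : 0 ≤ G) (hs : 0 ≤ s)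
    (h : D ^ 2 ≤ 4 * (A * B)) : D * (s * G) ≤ A * G ^ 2 + B * s ^ 2 := by
  have h1 : D ≤ 2 * (√A * √B) := by
    refine abs_le_of_sq_le_sq' ?_ (by positivity) |>.2
    rw [mul_pow, mul_pow, Real.sq_sqrt hA, Real.sq_sqrt hB]
    linarith
  have h2 : D * (s * G) ≤ 2 * (√A * √B) * (s * G) :=
    mul_le_mul_of_nonneg_right h1 (by positivity)
  have h3 : 0 ≤ (√A * G - √B * s) ^ 2 := sq_nonneg _
  have h4 : (√A * G - √B * s) ^ 2 = A * G ^ 2 + B * s ^ 2 - 2 * (√A * √B) * (s * G) := by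
    have e1 : √A ^ 2 = A := Real.sq_sqrt hA
    have e2 : √B ^ 2 = B := Real.sq_sqrt hB
    calc (√A * G - √B * s) ^ 2 = √A ^ 2 * G ^ 2 + √B ^ 2 * s ^ 2 - 2 * (√A * √B) * (s * G) := by ring
      _ = _ := by rw [e1, e2]
  linarith

theorem choose_two (k : ℕ) : ((2 * k).choose 2 : ℝ) = k * (2 * (k : ℝ) - 1) := by
  rw [Nat.cast_choose_two]
  push_cast
  ring

theorem choose_three (k : ℕ) (hk : 2 ≤ k) :
    ((2 * k).choose 3 : ℝ) = 2 * k * (2 * (k : ℝ) - 1) * (k - 1) / 3 := by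
  obtain ⟨m, rfl⟩ : ∃ m, k = m + 2 := ⟨k - 2, by omega⟩
  have h := Nat.add_one_mul_choose_eq (2 * (m + 2) - 1) 2
  have e1 : 2 * (m + 2) - 1 + 1 = 2 * (m + 2) := by omega
  rw [e1] at h
  have h2 : ((2 * (m + 2) - 1).choose 2 : ℝ) = (2 * m + 3) * (2 * m + 2) / 2 := by
    rw [Nat.cast_choose_two]
    have : ((2 * (m + 2) - 1 : ℕ) : ℝ) = 2 * m + 3 := by
      have : 2 * (m + 2) - 1 = 2 * m + 3 := by omega
      rw [this]
      push_cast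
      ring
    rw [this]
    ring
  have h3 : ((2 * (m + 2) : ℕ) : ℝ) * ((2 * (m + 2) - 1).choose 2 : ℝ) =
      ((2 * (m + 2)).choose (2 + 1) : ℝ) * ((2 + 1 : ℕ) : ℝ) := by exact_mod_cast h
  rw [h2] at h3
  push_cast at h3 ⊢
  linarith

/-- **GK10.** the pointwise inequality -/
theorem pwK
    (pK_six : ∀ {k : ℕ}, 6 ≤ k → ∀ {ψ : ℝ}, 1 ≤ ψ →
      ψ ^ k ≤ pK k (1:ℝ) (2 / 5 * (ψ ^ 2 * (ψ - 1))))
    (pK_eight : ∀ {k : ℕ}, 8 ≤ k → ∀ {ψ : ℝ}, 1 ≤ ψ →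
      ψ ^ k ≤ pK k (1:ℝ) (8 / 25 * (ψ ^ 2 * (ψ - 1))))
    {k : ℕ} (hk : 6 ≤ k) {μ w G t q : ℝ} (hμ : 0 ≤ μ) (hw : 0 ≤ w) (hG : 0 ≤ G)
    (ht : 0 ≤ t) (hq : 0 ≤ q) (h : q ^ k = lam k * pK k μ (16 / 81 * w)) :
    ((2 * k).choose 2 : ℝ) * t ^ 2 * (G ^ (2 * k - 2) * μ) +
        ((2 * k).choose 3 : ℝ) * t ^ 3 * (G ^ (2 * k - 3) * √(μ * w)) ≤
      k * cK k * t ^ 2 * (G ^ (2 * k - 2) * q) +
        9 / 100 * (k * cK k * t ^ 2) ^ 2 * (G ^ (2 * k - 4) * q ^ 2) := by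
  have hk1 : 1 ≤ k := by omega
  have hkR : (6 : ℝ) ≤ k := by exact_mod_cast hk
  have hc := cK_pos hk1
  rcases hμ.eq_or_lt with h0 | hμ0
  · rw [← h0]
    simp only [mul_zero, zero_mul, Real.sqrt_zero, add_zero]
    positivity
  -- the parameters
  set r : ℝ := lam k ^ ((1 : ℝ) / k) with hr
  have hr0 : 0 < r := Real.rpow_pos_of_pos (lam_pos k) _
  have hrk : r ^ k = lam k := by
    rw [hr, ← Real.rpow_natCast, ← Real.rpow_mul (lam_pos k).le, one_div,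
      inv_mul_cancel₀ (by positivity), Real.rpow_one]
  have hcr : cK k * r = 2 * (k : ℝ) - 1 := cK_mul hk1 hr0 hrk
  set z : ℝ := 16 / 81 * w / μ ^ 2 with hz
  have hz0 : 0 ≤ z := by positivity
  have hzw : 16 / 81 * w = z * μ ^ 2 := by
    rw [hz]
    field_simp
  set φ : ℝ := q / (r * μ) with hφ
  have hφ0 : 0 ≤ φ := by positivity
  have hqφ : q = r * μ * φ := by
    rw [hφ]
    field_simp
  have hφk : φ ^ k = pK k 1 z := by
    have h1 : (r * μ * φ) ^ k = lam k * (μ ^ k * pK k 1 z) := by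
      rw [← hqφ, h, hzw, pK_scale]
    rw [mul_pow, mul_pow, hrk] at h1
    have h2 : lam k * μ ^ k ≠ 0 := mul_ne_zero (lam_pos k).ne' (pow_pos hμ0 k).ne'
    refine mul_left_cancel₀ h2 ?_
    rw [h1]
    ring
  have hφ1 : 1 ≤ φ := by
    by_contra hlt
    push Not at hlt
    have h1 : φ ^ k < 1 := pow_lt_one₀ hφ0 hlt (by omega)
    have h2 := one_le_pK k hz0
    rw [hφk] at h1
    linarith
  -- the lower bound for `φ`
  have key : 25 / 4 * (((k : ℝ) - 1) ^ 2 * z) ≤ k * (2 * (k : ℝ) - 1) * (φ ^ 2 * (φ - 1)) := by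
    have hmono : ∀ ψ : ℝ, 1 ≤ ψ → ψ ^ k ≤ pK k 1 z → ψ ^ 2 * (ψ - 1) ≤ φ ^ 2 * (φ - 1) := by
      intro ψ hψ h1
      rw [← hφk] at h1
      have h2 : ψ ≤ φ := le_of_pow_le_pow_left₀ (by omega) hφ0 h1
      have h3 : ψ ^ 2 ≤ φ ^ 2 := pow_le_pow_left₀ (by linarith) h2 2
      exact mul_le_mul h3 (by linarith) (by linarith) (by positivity)
    rcases Nat.lt_or_ge k 8 with h8 | h8
    · obtain ⟨ψ, hψ, hψz⟩ := exists_psi (c := 5 / 2 * z) (by positivity)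
      have h1 := pK_six hk hψ
      rw [hψz] at h1
      have h2 : 2 / 5 * (5 / 2 * z) = z := by ring
      rw [h2] at h1
      have h3 := hmono ψ hψ h1
      rw [hψz] at h3
      have h4 : 25 / 4 * ((k : ℝ) - 1) ^ 2 ≤ k * (2 * (k : ℝ) - 1) * (5 / 2) := by
        interval_cases k <;> norm_num
      have h5 : 0 ≤ (k : ℝ) * (2 * (k : ℝ) - 1) := by nlinarith
      calc 25 / 4 * (((k : ℝ) - 1) ^ 2 * z) = 25 / 4 * ((k : ℝ) - 1) ^ 2 * z := by ring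
        _ ≤ k * (2 * (k : ℝ) - 1) * (5 / 2) * z := mul_le_mul_of_nonneg_right h4 hz0
        _ = k * (2 * (k : ℝ) - 1) * (5 / 2 * z) := by ring
        _ ≤ _ := mul_le_mul_of_nonneg_left h3 h5
    · obtain ⟨ψ, hψ, hψz⟩ := exists_psi (c := 25 / 8 * z) (by positivity)
      have h1 := pK_eight h8 hψ
      rw [hψz] at h1
      have h2 : 8 / 25 * (25 / 8 * z) = z := by ring
      rw [h2] at h1
      have h3 := hmono ψ hψ h1
      rw [hψz] at h3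
      have h4 : 25 / 4 * ((k : ℝ) - 1) ^ 2 ≤ k * (2 * (k : ℝ) - 1) * (25 / 8) := by
        nlinarith
      have h5 : 0 ≤ (k : ℝ) * (2 * (k : ℝ) - 1) := by nlinarith
      calc 25 / 4 * (((k : ℝ) - 1) ^ 2 * z) = 25 / 4 * ((k : ℝ) - 1) ^ 2 * z := by ring
        _ ≤ k * (2 * (k : ℝ) - 1) * (25 / 8) * z := mul_le_mul_of_nonneg_right h4 hz0
        _ = k * (2 * (k : ℝ) - 1) * (25 / 8 * z) := by ring
        _ ≤ _ := mul_le_mul_of_nonneg_left h3 h5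
  -- the quadratic form
  set c2 : ℝ := k * (2 * (k : ℝ) - 1) with hc2
  have hc20 : 0 < c2 := by
    rw [hc2]
    nlinarith
  set c3 : ℝ := 2 * c2 * ((k : ℝ) - 1) / 3 with hc3
  have hc30 : 0 ≤ c3 := by
    rw [hc3]
    have : (0 : ℝ) ≤ (k : ℝ) - 1 := by linarith
    positivity
  set s : ℝ := t * √μ with hs
  have hs0 : 0 ≤ s := by positivity
  have hs2 : s ^ 2 = t ^ 2 * μ := by rw [hs, mul_pow, Real.sq_sqrt hμ]
  have hsq : t ^ 3 * √(μ * w) = 9 / 4 * √z * s ^ 3 := by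
    have h1 : μ * w = (9 / 4 * √z * (√μ) ^ 3) ^ 2 := by
      have e1 : (√z) ^ 2 = z := Real.sq_sqrt hz0
      have e2 : (√μ) ^ 2 = μ := Real.sq_sqrt hμ
      calc μ * w = 81 / 16 * (16 / 81 * w) * μ := by ring
        _ = 81 / 16 * z * μ ^ 3 := by rw [hzw]; ring
        _ = 81 / 16 * (√z) ^ 2 * ((√μ) ^ 2) ^ 3 := by rw [e1, e2]
        _ = _ := by ring
    rw [h1, Real.sqrt_sq (by positivity), hs]
    ring
  have hquad := quad (A := c2 * (φ - 1)) (B := 9 / 100 * c2 ^ 2 * φ ^ 2) (D := 9 / 4 * c3 * √z)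
    (G := G) (s := s) (mul_nonneg hc20.le (by linarith)) (by positivity) hG hs0 (by
      have e1 : (√z) ^ 2 = z := Real.sq_sqrt hz0
      calc (9 / 4 * c3 * √z) ^ 2 = 81 / 16 * c3 ^ 2 * (√z) ^ 2 := by ring
        _ = 81 / 16 * c3 ^ 2 * z := by rw [e1]
        _ = 9 / 25 * c2 ^ 2 * (25 / 4 * (((k : ℝ) - 1) ^ 2 * z)) := by rw [hc3]; ring
        _ ≤ 9 / 25 * c2 ^ 2 * (c2 * (φ ^ 2 * (φ - 1))) :=
          mul_le_mul_of_nonneg_left key (by positivity)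
        _ = _ := by ring)
  have hkc : (k : ℝ) * cK k * r = c2 := by
    rw [mul_assoc, hcr]
  have hkq : (k : ℝ) * cK k * t ^ 2 * q = c2 * φ * s ^ 2 := by
    rw [hqφ, hs2, ← hkc]
    ring
  rw [choose_two k, choose_three k (by omega)]
  have hG2 : G ^ (2 * k - 2) = G ^ (2 * k - 4) * G ^ 2 := by
    rw [← pow_add]
    congr 1
    omega
  have hG3 : G ^ (2 * k - 3) = G ^ (2 * k - 4) * G := by
    rw [← pow_succ]
    congr 1
    omega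
  have hP : 0 ≤ G ^ (2 * k - 4) * s ^ 2 := by positivity
  have hfin := mul_le_mul_of_nonneg_left hquad hP
  have eL : (k : ℝ) * (2 * (k : ℝ) - 1) * t ^ 2 * (G ^ (2 * k - 2) * μ) +
      2 * (k : ℝ) * (2 * (k : ℝ) - 1) * ((k : ℝ) - 1) / 3 * t ^ 3 * (G ^ (2 * k - 3) * √(μ * w)) =
      G ^ (2 * k - 4) * s ^ 2 * (c2 * G ^ 2) +
        G ^ (2 * k - 4) * s ^ 2 * (9 / 4 * c3 * √z * (s * G)) := by
    have e1 : (k : ℝ) * (2 * (k : ℝ) - 1) * t ^ 2 * (G ^ (2 * k - 2) * μ) =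
        G ^ (2 * k - 4) * s ^ 2 * (c2 * G ^ 2) := by
      rw [hG2, hs2, hc2]
      ring
    have e2 : 2 * (k : ℝ) * (2 * (k : ℝ) - 1) * ((k : ℝ) - 1) / 3 * t ^ 3 *
        (G ^ (2 * k - 3) * √(μ * w)) =
        G ^ (2 * k - 4) * s ^ 2 * (9 / 4 * c3 * √z * (s * G)) := by
      calc _ = c3 * (G ^ (2 * k - 3)) * (t ^ 3 * √(μ * w)) := by rw [hc3, hc2]; ring
        _ = c3 * (G ^ (2 * k - 4) * G) * (9 / 4 * √z * s ^ 3) := by rw [hsq, hG3]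
        _ = _ := by ring
    rw [e1, e2]
  have eR : (k : ℝ) * cK k * t ^ 2 * (G ^ (2 * k - 2) * q) +
        9 / 100 * (k * cK k * t ^ 2) ^ 2 * (G ^ (2 * k - 4) * q ^ 2) =
      G ^ (2 * k - 4) * s ^ 2 * (c2 * G ^ 2) + G ^ (2 * k - 4) * s ^ 2 *
        (c2 * (φ - 1) * G ^ 2 + 9 / 100 * c2 ^ 2 * φ ^ 2 * s ^ 2) := by
    calc _ = G ^ (2 * k - 4) * G ^ 2 * ((k : ℝ) * cK k * t ^ 2 * q) +
          9 / 100 * G ^ (2 * k - 4) * ((k : ℝ) * cK k * t ^ 2 * q) ^ 2 := by rw [hG2]; ring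
      _ = _ := by rw [hkq]; ring
  rw [eL, eR]
  linarith

end Pool.Agent.N957.LK
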